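import Mathlib
import Pool.Agent.H57.Cong

namespace Pool.Agent.Results.MP_2a5e5c_nt.Fails

open Finset Pool.Agent.H57.Cong

/-- the first sum -/
def S1 (p : ℕ) : ℚ := ∑ k ∈ range p, bn (-1 / 3) k * bn (-1 / 6) k / (-1024) ^ k

/-- Part (b) fails. -/
theorem result : ¬ ∀ p : ℕ, p.Prime → 3 < p → ∀ x y : ℤ, 4 * (p : ℤ) = 41 * x ^ 2 + 3 * y ^ 2 →
    Cong p 2 (S1 p) (5 / 32 * (jacobiSym x 3 : ℚ) * (41 * x - p / x)) := by
  intro h
  have := h 41 (by norm_num) (by norm_num) 2 0 (by norm_num)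
  rw [show jacobiSym 2 3 = -1 by norm_num] at this
  refine not_cong (by norm_num) ?_ this
  decide +kernel

end Pool.Agent.Results.MP_2a5e5c_nt.Fails
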